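import Pool.Agent.H31R3.AL.Code

set_option autoImplicit false

/-!
The perfect-set form of Vaught's conjecture for locally almost linear relations: binary relations in
which every element is in only finitely many irregular pairs, with further relations on the tuples of
pairwise irregular elements.
-/

namespace Pool.Agent.Results.MP_5df2c5_lc.AlmostLinearRelations

/-- Structures on `ℕ`: a binary relation `x.1` and relations `x.2 0, x.2 1, ...` of the arities
`a 0, a 1, ...`. -/
abbrev Structures (a : ℕ → ℕ) : Type := (ℕ → ℕ → Bool) × ((i : ℕ) → (Fin (a i) → ℕ) → Bool)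

/-- `u → v`: the relation `R` holds for `(u, v)` and not for `(v, u)`. -/
def Arrow (R : ℕ → ℕ → Bool) (u v : ℕ) : Prop := R u v = true ∧ R v u = false

/-- The distinct elements `u`, `v` form an irregular pair: neither `u → v` nor `v → u`, or both
belong to a triple with `a → b`, `b → c` and not `a → c`. In a strict partial order the irregular
pairs are the incomparable pairs. -/
def Irregular (R : ℕ → ℕ → Bool) (u v : ℕ) : Prop :=
  u ≠ v ∧ ((¬ Arrow R u v ∧ ¬ Arrow R v u) ∨
    ∃ a b c, (Arrow R a b ∧ Arrow R b c ∧ ¬ Arrow R a c) ∧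
      (u = a ∨ u = b ∨ u = c) ∧ (v = a ∨ v = b ∨ v = c))

/-- The binary relation is locally almost linear: every element is in finitely many irregular pairs.
The other relations hold only for tuples whose entries are pairwise equal or irregular (so unary
predicates are arbitrary). -/
structure AlmostLinear {a : ℕ → ℕ} (x : Structures a) : Prop where
  finite : ∀ u, {v | Irregular x.1 u v}.Finite
  tuples : ∀ i t, x.2 i t = true → ∀ j k, t j = t k ∨ Irregular x.1 (t j) (t k)

/-- `σ` is an isomorphism from `x` to `y`. -/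
def IsIso {a : ℕ → ℕ} (σ : Equiv.Perm ℕ) (x y : Structures a) : Prop :=
  (∀ u v, y.1 (σ u) (σ v) = x.1 u v) ∧ ∀ i (t : Fin (a i) → ℕ), y.2 i (⇑σ ∘ t) = x.2 i t

/-- Every isomorphism-invariant Borel class `B` of locally almost linear relations on `ℕ`, with
further relations on pairwise irregular elements, contains countably many isomorphism types, or there
is a continuous map from the Cantor space into `B` with pairwise non-isomorphic values. -/
theorem result {a : ℕ → ℕ} (B : Set (Structures a)) (hB : MeasurableSet B)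
    (hA : ∀ x ∈ B, AlmostLinear x)
    (hi : ∀ x ∈ B, ∀ (y : Structures a) (σ : Equiv.Perm ℕ), IsIso σ x y → y ∈ B) :
    (∃ f : ℕ → Structures a, ∀ x ∈ B, ∃ (n : ℕ) (σ : Equiv.Perm ℕ), IsIso σ (f n) x) ∨
    (∃ c : (ℕ → Bool) → Structures a, Continuous c ∧ (∀ s, c s ∈ B) ∧
      ∀ s t, (∃ σ : Equiv.Perm ℕ, IsIso σ (c s) (c t)) → s = t) := by
  have key : ∀ (σ : Equiv.Perm ℕ) (x y : Structures a),
      IsIso σ x y ↔ y = Pool.Agent.H31R3.AL.rel σ x := by
    intro σ x y
    constructor
    · rintro ⟨h1, h2⟩
      refine Prod.ext ?_ ?_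
      · funext m n
        have h3 := h1 (σ.symm m) (σ.symm n)
        rw [σ.apply_symm_apply, σ.apply_symm_apply] at h3
        exact h3
      · funext i t
        have h3 := h2 i (⇑σ.symm ∘ t)
        have h4 : ⇑σ ∘ (⇑σ.symm ∘ t) = t := by
          funext j
          exact σ.apply_symm_apply (t j)
        rw [h4] at h3
        exact h3
    · rintro rfl
      refine ⟨fun m n => ?_, fun i t => ?_⟩
      · show x.1 (σ.symm (σ m)) (σ.symm (σ n)) = x.1 m n
        rw [σ.symm_apply_apply, σ.symm_apply_apply]
      · exact congrArg (x.2 i) (funext fun j => σ.symm_apply_apply (t j))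
  rcases Pool.Agent.H31R3.AL.main B hB (fun x hx => ⟨(hA x hx).finite, (hA x hx).tuples⟩)
    (fun x hx σ => hi x hx _ σ ((key σ x _).2 rfl)) with ⟨f, hf⟩ | ⟨g, hg, hgB, hgi⟩
  · left
    refine ⟨f, fun x hx => ?_⟩
    obtain ⟨n, σ, h⟩ := hf x hx
    exact ⟨n, σ, (key σ _ _).2 h⟩
  · right
    refine ⟨g, hg, hgB, ?_⟩
    rintro s t ⟨σ, h⟩
    exact hgi s t ⟨σ, (key σ _ _).1 h⟩

end Pool.Agent.Results.MP_5df2c5_lc.AlmostLinearRelations
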