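import Pool.Agent.TH783.FC.Itp
import Pool.Agent.TH783.MD.Emb

set_option autoImplicit false

/-!
Vaught's conjecture is equivalent to its restriction to the complete theories of graphs whose
countable models are induced subgraphs of one of the minimal obstructions to monadic dependence:
flipped star crossings, clique crossings and half graph crossings, and comparability grids.
-/

namespace Pool.Agent.Results.MP_5df2c5_lc.MonadicObstructions

open FirstOrder FirstOrder.Language

/-- The vertices of a crossing: a row for every rational number `i`, a column for every rational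
number `j`, and `r` vertices for every pair `i`, `j`. -/
inductive Vertex (r : ℕ) : Type
  | row (i : ℚ) : Vertex r
  | col (j : ℚ) : Vertex r
  | pt (i j : ℚ) (t : Fin r) : Vertex r

/-- The layer of a vertex: rows have layer `0`, the vertex number `t < r` of a pair has layer
`t + 1`, and columns have layer `r + 1`. -/
def Vertex.layer {r : ℕ} : Vertex r → ℕ
  | row _ => 0
  | pt _ _ t => t + 1
  | col _ => r + 1

/-- Three kinds of crossings. -/
inductive Kind : Type
  | star
  | clique
  | half

/-- The (directed) edges of the crossings. The vertices of a pair `i`, `j` form a path. In the star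
crossing its first vertex is adjacent to the row `i` and its last vertex to the column `j`. In the
clique crossing, moreover, the first vertices of the pairs in one row form a clique, and so do the
last vertices of the pairs in one column. In the half graph crossing the first vertex of the pair
`i`, `j` is adjacent to all rows `i' ≤ i` and its last vertex to all columns `j' ≤ j`. -/
def Edge {r : ℕ} : Kind → Vertex r → Vertex r → Prop
  | .half, .row i, .pt i' _ t => i ≤ i' ∧ (t : ℕ) = 0
  | _, .row i, .pt i' _ t => i = i' ∧ (t : ℕ) = 0
  | .half, .pt _ j t, .col j' => j' ≤ j ∧ (t : ℕ) + 1 = r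
  | _, .pt _ j t, .col j' => j = j' ∧ (t : ℕ) + 1 = r
  | .clique, .pt i j t, .pt i' j' t' => (i = i' ∧ j = j' ∧ (t' : ℕ) = t + 1) ∨
      (i = i' ∧ (t : ℕ) = 0 ∧ (t' : ℕ) = 0) ∨ (j = j' ∧ (t : ℕ) + 1 = r ∧ (t' : ℕ) + 1 = r)
  | _, .pt i j t, .pt i' j' t' => i = i' ∧ j = j' ∧ (t' : ℕ) = t + 1
  | _, _, _ => False

/-- The flip of a crossing: the edges between the layers `a` and `b` are complemented for all
pairs `a`, `b` with `f a b`. -/
def flipped (k : Kind) (r : ℕ) (f : ℕ → ℕ → Prop) (u v : Vertex r) : Prop :=
  u ≠ v ∧ ¬ ((Edge k u v ∨ Edge k v u) ↔ f u.layer v.layer)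

/-- The comparability grid: two points of the rational plane are adjacent if they are in one row or
in one column or one of them is larger in both coordinates. -/
def grid (u v : ℚ × ℚ) : Prop :=
  u ≠ v ∧ (u.1 = v.1 ∨ u.2 = v.2 ∨ (u.1 < v.1 ↔ u.2 < v.2))

/-- The minimal obstructions to monadic dependence (with infinitely many rows and columns). -/
inductive IsObstruction : {V : Type} → (V → V → Prop) → Prop
  | crossing (k : Kind) (r : ℕ) (f : ℕ → ℕ → Prop) (hr : 1 ≤ r) (hf : ∀ a b, f a b → f b a) :
      IsObstruction (flipped k r f)
  | grid : IsObstruction grid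

/-- The graph `S` is isomorphic to an induced subgraph of the graph `R`. -/
def InducedSubgraph {V : Type} (R : V → V → Prop) (S : Language.graph.Structure ℕ) : Prop :=
  ∃ g : ℕ → V, Function.Injective g ∧ ∀ u v : ℕ,
    @Structure.RelMap Language.graph ℕ S 2 Language.adj ![u, v] ↔ R (g u) (g v)

/-- Vaught's conjecture for the theory `T` (the dichotomy of the problem): the models with universe
`ℕ` fall into countably many isomorphism classes, or some continuous family of models, indexed by
the Cantor space, consists of pairwise non-isomorphic models. -/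
def Vaught (L : FirstOrder.Language.{0, 0}) (T : L.Theory) : Prop :=
  (∃ g : ℕ → L.Structure ℕ, ∀ S : L.Structure ℕ, @Theory.Model L ℕ S T →
    ∃ n : ℕ, Nonempty (@FirstOrder.Language.Equiv L ℕ ℕ S (g n))) ∨
  (∃ f : (ℕ → Bool) → L.Structure ℕ, (∀ x : ℕ → Bool, @Theory.Model L ℕ (f x) T) ∧
    (∀ x y : ℕ → Bool, Nonempty (@FirstOrder.Language.Equiv L ℕ ℕ (f x) (f y)) → x = y) ∧
    (∀ (n : ℕ) (R : L.Relations n) (a : Fin n → ℕ),
      IsClopen {x : ℕ → Bool | @Structure.RelMap L ℕ (f x) n R a}) ∧
    (∀ (n : ℕ) (F : L.Functions n) (a : Fin n → ℕ) (b : ℕ),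
      IsOpen {x : ℕ → Bool | @Structure.funMap L ℕ (f x) n F a = b}))

theorem ind_star {r : ℕ} {s : Bool} {f : ℕ → ℕ → Prop} {S : Language.graph.Structure ℕ}
    (h : Pool.Agent.TH783.FC.Sub r s f (Pool.Agent.W889.FO.StE.gd S)) :
    InducedSubgraph (flipped (if s then Kind.clique else Kind.star) r f) S := by
  obtain ⟨g, h1, h2⟩ := h
  let c : Pool.Agent.TH783.FC.Vx r → Vertex r := fun u => match u with
    | .row i => .row i
    | .col j => .col j
    | .pt i j t => .pt i j t
  have hc : Function.Injective c := by
    intro u v huv
    cases u <;> cases v <;> simp_all [c]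
  have hl : ∀ u, (c u).layer = u.lay := by
    intro u
    cases u <;> rfl
  have he : ∀ u v, Edge (if s then Kind.clique else Kind.star) (c u) (c v) ↔
      Pool.Agent.TH783.FC.Vx.edge s u v := by
    intro u v
    cases s <;> cases u <;> cases v <;> simp [c, Edge, Pool.Agent.TH783.FC.Vx.edge]
  refine ⟨fun n => c (g n), hc.comp h1, fun u v => ?_⟩
  have e : Pool.Agent.W889.FO.StE.gd S u v ↔ Pool.Agent.TH783.FC.Cr r s f (g u) (g v) := h2 u v
  refine e.trans ?_
  unfold Pool.Agent.TH783.FC.Cr flipped
  rw [he, he, hl, hl, hc.ne_iff]

theorem ind_half {r : ℕ} {f : ℕ → ℕ → Prop} {S : Language.graph.Structure ℕ} (hr : 1 ≤ r)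
    (h : Pool.Agent.TH783.MD.WS r false f S) :
    InducedSubgraph (flipped Kind.half r f) S := by
  obtain ⟨g, h1, h2⟩ := h.half hr
  let c : Pool.Agent.TH783.MD.Vx ℚ r → Vertex r := fun u => match u with
    | .row i => .row i
    | .col j => .col j
    | .pt i j t => .pt i j t
  have hc : Function.Injective c := by
    intro u v huv
    cases u <;> cases v <;> simp_all [c]
  have hl : ∀ u, (c u).layer = u.lay := by
    intro u
    cases u <;> rfl
  have he : ∀ u v, Edge Kind.half (c u) (c v) ↔ Pool.Agent.TH783.MD.he u v := by
    intro u v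
    cases u <;> cases v <;> simp [c, Edge, Pool.Agent.TH783.MD.he]
  refine ⟨fun n => c (g n), hc.comp h1, fun u v => ?_⟩
  have e : Pool.Agent.W889.FO.StE.gd S u v ↔ Pool.Agent.TH783.MD.Hc r f (g u) (g v) := h2 u v
  refine e.trans ?_
  unfold Pool.Agent.TH783.MD.Hc flipped
  rw [he, he, hl, hl, hc.ne_iff]

theorem ind_grid {S : Language.graph.Structure ℕ}
    (h : Pool.Agent.TH783.MD.WS 1 true (fun _ _ => False) S) : InducedSubgraph grid S := by
  obtain ⟨g, h1, h2⟩ := h.grid
  exact ⟨g, h1, h2⟩

/-- Vaught's conjecture (for all theories in all countable languages) holds if and only if it holds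
for the complete theories of graphs all of whose models on `ℕ` are isomorphic to induced subgraphs
of `R`, where `R` is any of the minimal obstructions to monadic dependence: a flipped star crossing,
clique crossing or half graph crossing, or a comparability grid. -/
theorem result {V : Type} (R : V → V → Prop) (hR : IsObstruction R) :
    (∀ L : FirstOrder.Language.{0, 0}, Countable L.Symbols → ∀ T : L.Theory, Vaught L T) ↔
    ∀ T : Language.graph.Theory, T.IsComplete →
      (∀ S : Language.graph.Structure ℕ, @Theory.Model Language.graph ℕ S T →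
        InducedSubgraph R S) → Vaught Language.graph T := by
  constructor
  · intro h T _ _
    refine h _ ?_ T
    have : Countable (Σ n, Language.graph.Relations n) := Pool.Agent.W889.FO.StD.countable_LG
    unfold FirstOrder.Language.Symbols
    infer_instance
  · intro hV L hL T
    cases hR with
    | crossing k r f hr hf =>
      cases k with
      | star =>
        exact Pool.Agent.TH783.FC.main (s := false) hr hf
          (fun T' h1 h2 => hV T' h1 fun S hS => ind_star (h2 S hS)) L hL T
      | clique =>
        exact Pool.Agent.TH783.FC.main (s := true) hr hf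
          (fun T' h1 h2 => hV T' h1 fun S hS => ind_star (h2 S hS)) L hL T
      | half =>
        exact Pool.Agent.TH783.MD.main (s := false) hr hf (by simp)
          (fun T' h1 h2 => hV T' h1 fun S hS => ind_half hr (h2 S hS)) L hL T
    | grid =>
      exact Pool.Agent.TH783.MD.main (s := true) (r := 1) (f := fun _ _ => False) le_rfl
        (fun _ _ h => h) (fun _ => rfl)
        (fun T' h1 h2 => hV T' h1 fun S hS => ind_grid (h2 S hS)) L hL T

end Pool.Agent.Results.MP_5df2c5_lc.MonadicObstructions
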