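import Pool.Agent.TH783.Pol.Str
import Pool.Agent.H623R2.VE.PerfSet

set_option autoImplicit false

/-!
Vaught's conjecture, with a perfect set of models, for every isomorphism-invariant Borel class of
structures that is closed under weak substructures (deletion of tuples from the relations of arity
at least two).
-/

namespace Pool.Agent.Results.MP_5df2c5_lc.MonotoneClasses

/-- Structures with universe `ℕ` for the language with relation symbols `R 0, R 1, ...`, where
`R n` has arity `a n`. -/
abbrev Structures (a : ℕ → ℕ) : Type := (n : ℕ) → (Fin (a n) → ℕ) → Bool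

/-- Isomorphism. -/
def Iso {a : ℕ → ℕ} (x y : Structures a) : Prop :=
  ∃ σ : Equiv.Perm ℕ, ∀ (n : ℕ) (t : Fin (a n) → ℕ), y n (fun k => σ (t k)) = x n t

/-- `y` arises from `x` by deleting tuples from the relations of arity at least two; the relations
of arity at most one are not changed. -/
structure WeakSubstructure {a : ℕ → ℕ} (y x : Structures a) : Prop where
  small : ∀ n, a n ≤ 1 → y n = x n
  le : ∀ (n : ℕ) (t : Fin (a n) → ℕ), y n t = true → x n t = true

open Pool.Agent.H533R2.VO (RIso Dich)

theorem iso_iff {a : ℕ → ℕ} (x y : Structures a) : Iso x y ↔ RIso x y := Iff.rfl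

/-- Let `K` be an isomorphism-invariant Borel set of structures on `ℕ` such that every structure
obtained from a member of `K` by deleting tuples from relations of arity at least two is in `K`.
Then `K` meets only countably many isomorphism classes, or it contains a nonempty perfect set of
pairwise non-isomorphic structures. -/
theorem result (a : ℕ → ℕ) (K : Set (Structures a))
    (hB : @MeasurableSet (Structures a) (borel (Structures a)) K)
    (hi : ∀ x ∈ K, ∀ y, Iso x y → y ∈ K)
    (hw : ∀ x ∈ K, ∀ y, WeakSubstructure y x → y ∈ K) :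
    (∃ C : Set (Structures a), C.Countable ∧ ∀ x ∈ K, ∃ c ∈ C, Iso c x) ∨
    (∃ P : Set (Structures a), P.Nonempty ∧ Perfect P ∧ P ⊆ K ∧
      ∀ x ∈ P, ∀ y ∈ P, Iso x y → x = y) := by
  have hK : MeasurableSet K := by
    rw [BorelSpace.measurable_eq (α := Structures a)]
    exact hB
  have hinv : ∀ x y : Structures a, RIso x y → (x ∈ K ↔ y ∈ K) := by
    intro x y h
    refine ⟨fun hx => hi x hx y h, fun hy => hi y hy x ?_⟩
    obtain ⟨σ, hσ⟩ := h
    refine ⟨σ.symm, fun n t => ?_⟩
    rw [← hσ]
    congr 1
    funext k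
    simp
  rcases Pool.Agent.TH783.Pol.mono_main a K hK hinv (fun x hx y h1 h2 => hw x hx y
    ⟨fun n hn => h1 n (by omega), h2⟩) with ⟨f, hf⟩ | ⟨g, hg1, hg2, hg3⟩
  · left
    refine ⟨Set.range f, Set.countable_range f, fun x hx => ?_⟩
    obtain ⟨n, hn⟩ := hf x hx
    exact ⟨f n, ⟨n, rfl⟩, hn⟩
  · right
    have hr : ∀ x : Structures a, RIso x x := fun x => ⟨1, fun _ _ => rfl⟩
    have hinj : Function.Injective g := fun c d h => hg3 c d (by rw [h]; exact hr _)
    obtain ⟨hne, hperf⟩ := Pool.Agent.H623R2.VE.perfect_range g hg1 hinj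
    refine ⟨Set.range g, hne, hperf, ?_, ?_⟩
    · rintro _ ⟨c, rfl⟩
      exact hg2 c
    · rintro _ ⟨c, rfl⟩ _ ⟨d, rfl⟩ h
      rw [hg3 c d h]

end Pool.Agent.Results.MP_5df2c5_lc.MonotoneClasses
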