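import Pool.Agent.TH686.DO.Inv2

set_option autoImplicit false

/-!
Vaught's conjecture, perfect-set form, for all first-order theories is equivalent to its restriction
to the complete theories of pairs of dense linear orders without endpoints.
-/

namespace Pool.Agent.Results.MP_5df2c5_lc.PairsOfDenseOrders

open FirstOrder
open Pool.Agent.TH686.FO (L2 R2)

/-- Vaught's conjecture, perfect-set form, for the theory `T` in the language `L` (the body of the
frozen statement): the models with universe `ℕ` fall into countably many isomorphism classes, or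
some continuous family of models, indexed by the Cantor space, consists of pairwise
non-isomorphic models. -/
def Dichotomy (L : FirstOrder.Language.{0, 0}) (T : L.Theory) : Prop :=
  (∃ g : ℕ → L.Structure ℕ, ∀ S : L.Structure ℕ,
      @FirstOrder.Language.Theory.Model L ℕ S T →
        ∃ n : ℕ, Nonempty (@FirstOrder.Language.Equiv L ℕ ℕ S (g n))) ∨
  (∃ f : (ℕ → Bool) → L.Structure ℕ,
      (∀ x : ℕ → Bool, @FirstOrder.Language.Theory.Model L ℕ (f x) T) ∧
      (∀ x y : ℕ → Bool,
          Nonempty (@FirstOrder.Language.Equiv L ℕ ℕ (f x) (f y)) → x = y) ∧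
      (∀ (n : ℕ) (R : L.Relations n) (a : Fin n → ℕ),
          IsClopen {x : ℕ → Bool | @FirstOrder.Language.Structure.RelMap L ℕ (f x) n R a}) ∧
      (∀ (n : ℕ) (F : L.Functions n) (a : Fin n → ℕ) (b : ℕ),
          IsOpen {x : ℕ → Bool | @FirstOrder.Language.Structure.funMap L ℕ (f x) n F a = b}))

/-- Vaught's conjecture for all first-order theories in all countable languages (the frozen
statement). -/
def FullConjecture : Prop :=
  ∀ L : FirstOrder.Language.{0, 0}, Countable L.Symbols → ∀ T : L.Theory, Dichotomy L T

/-- The interpretation of the binary relation symbol `R` (`L2` has two binary relation symbols,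
`R2.fst` and `R2.snd`, and no other symbols). -/
def Rel (S : L2.Structure ℕ) (R : L2.Relations 2) (u v : ℕ) : Prop :=
  @FirstOrder.Language.Structure.RelMap L2 ℕ S 2 R ![u, v]

/-- Dense linear orders without endpoints on `ℕ` (copies of the order of the rational numbers). -/
structure DenseOrder (r : ℕ → ℕ → Prop) : Prop where
  irrefl : ∀ x, ¬ r x x
  trans : ∀ x y z, r x y → r y z → r x z
  total : ∀ x y, x ≠ y → r x y ∨ r y x
  dense : ∀ x y, r x y → ∃ z, r x z ∧ r z y
  above : ∀ x, ∃ y, r x y
  below : ∀ x, ∃ y, r y x

/-- **Theorem.** Vaught's conjecture holds for all theories if and only if it holds for all complete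
theories whose models are sets with two dense linear orders without endpoints, that is, for the
complete theories of the permutations of the rational numbers, regarded as a second order on the
rationals. -/
theorem result : FullConjecture ↔ ∀ T : L2.Theory, T.IsComplete →
    (∀ S : L2.Structure ℕ, @FirstOrder.Language.Theory.Model L2 ℕ S T →
      DenseOrder (Rel S R2.fst) ∧ DenseOrder (Rel S R2.snd)) → Dichotomy L2 T := by
  have key : ∀ r : ℕ → ℕ → Prop, DenseOrder r ↔ Pool.Agent.TH686.DO.DL1 r := by
    intro r
    constructor
    · intro h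
      exact ⟨⟨h.irrefl, h.trans, h.total⟩, h.dense, h.above, h.below⟩
    · intro h
      exact ⟨h.slo.irrefl, h.slo.trans, h.slo.total, h.dn, h.ab, h.be⟩
  refine ⟨fun h T _ _ => h L2 Pool.Agent.TH686.FO.countable_L2s T, fun h L hL T => ?_⟩
  exact Pool.Agent.TH686.DO.full_dd (fun T' hT' hS => h T' hT' fun S hm =>
    ⟨(key _).2 (hS S hm).1, (key _).2 (hS S hm).2⟩) L hL T

end Pool.Agent.Results.MP_5df2c5_lc.PairsOfDenseOrders
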